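import Pool.Agent.Lib.IncompactC.Fine

/-!
# Coverings of families of pairs (label, sequence)

Let `G` be a graph on a set `L` of labels and let `P` be a family of pairs `(λ, p)` of a label and a
sequence `p : ω → Y`.  The family is *covered* if to every finite sequence `t` in `Y` one can attach a
set `m t` of labels on which `G` is countably chromatic, in such a way that for every `(λ, p)` in `P`
the label `λ` belongs to `m t` for some finite initial segment `t` of `p`.  This is fineness relative
to the graphs `C d`: labels joined in `G`, and sequences agreeing below `d`.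
-/

open Set Cardinal

namespace Pool.Agent.Lib.IncompactC

variable {L Y : Type}

/-- The family `Q` of pairs (label, sequence) is covered, relative to the graph `G` on the labels: there
are sets `m t` of labels (`t` a finite sequence) inducing countably chromatic subgraphs of `G`, such
that for every `(λ, p) ∈ Q` the label `λ` belongs to `m t` for an initial segment `t` of `p`. -/
def Covered (G : SimpleGraph L) (Q : Set (L × (ℕ → Y))) : Prop :=
  ∃ m : List Y → Set L, (∀ t, Nonempty ((G.induce (m t)).Coloring ℕ)) ∧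
    ∀ q ∈ Q, ∃ k, q.1 ∈ m ((List.range k).map q.2)

/-- The graphs belonging to a family of pairs: labels joined, and sequences agreeing below `d`. -/
def pairGraph (G : SimpleGraph L) (P : Set (L × (ℕ → Y))) (d : ℕ) : SimpleGraph P where
  Adj a b := G.Adj a.1.1 b.1.1 ∧ ∀ j < d, a.1.2 j = b.1.2 j
  symm := ⟨fun _ _ h => ⟨h.1.symm, fun j hj => (h.2 j hj).symm⟩⟩
  loopless := ⟨fun _ h => G.irrefl h.1⟩

theorem pairGraph_antitone (G : SimpleGraph L) (P : Set (L × (ℕ → Y))) :
    Antitone (pairGraph G P) := by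
  intro d e hde a b hab
  exact ⟨hab.1, fun j hj => hab.2 j (lt_of_lt_of_le hj hde)⟩

theorem fine_of_covered (G : SimpleGraph L) (P : Set (L × (ℕ → Y))) (A : Set P)
    (h : Covered G (Subtype.val '' A)) : Fine (pairGraph G P) A := by
  obtain ⟨m, hm, hc⟩ := h
  let c := fun t => (hm t).some
  refine ⟨fun k => {a | a.1.1 ∈ m ((List.range k).map a.1.2)}, fun a ha => ?_, fun k => ?_⟩
  · rw [mem_iUnion]
    exact hc a.1 ⟨a, ha, rfl⟩
  · refine ⟨SimpleGraph.Coloring.mk (fun a => c ((List.range k).map a.1.1.2) ⟨a.1.1.1, a.2⟩) ?_⟩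
    intro a b hadj heq
    have hadj' : (pairGraph G P k).Adj a.1 b.1 := hadj
    have ht : (List.range k).map a.1.1.2 = (List.range k).map b.1.1.2 := map_range_eq.2 hadj'.2
    have key : ∀ (t t' : List Y) (_ : t = t') (x y : L) (hx : x ∈ m t) (hy : y ∈ m t'),
        G.Adj x y → c t ⟨x, hx⟩ ≠ c t' ⟨y, hy⟩ := by
      rintro t t' rfl x y hx hy hxy
      exact (c t).valid (v := ⟨x, hx⟩) (w := ⟨y, hy⟩) hxy
    exact key _ _ ht _ _ a.2 b.2 hadj'.1 heq

theorem covered_of_fine (G : SimpleGraph L) (P : Set (L × (ℕ → Y)))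
    (h : Fine (pairGraph G P) univ) : Covered G P := by
  obtain ⟨B, hB, hc⟩ := h
  let c := fun d => (hc d).some
  let m : List Y → Set L := fun t =>
    {x | ∃ a : P, a ∈ B t.length ∧ a.1.1 = x ∧ (List.range t.length).map a.1.2 = t}
  refine ⟨m, fun t => ?_, fun q hq => ?_⟩
  · have h : ∀ x : m t, ∃ a : B t.length, a.1.1.1 = x.1 ∧
        (List.range t.length).map a.1.1.2 = t := by
      rintro ⟨x, a, h1, h2, h3⟩
      exact ⟨⟨a, h1⟩, h2, h3⟩
    choose a ha1 ha2 using h
    refine ⟨SimpleGraph.Coloring.mk (fun x => c t.length (a x)) ?_⟩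
    intro x y hadj heq
    have hadj' : G.Adj x.1 y.1 := hadj
    have h1 : ((pairGraph G P t.length).induce (B t.length)).Adj (a x) (a y) := by
      have h2 : G.Adj (a x).1.1.1 (a y).1.1.1 := by
        rw [ha1 x, ha1 y]
        exact hadj'
      exact ⟨h2, map_range_eq.1 ((ha2 x).trans (ha2 y).symm)⟩
    exact (c t.length).valid h1 heq
  · have h1 := hB (mem_univ (⟨q, hq⟩ : P))
    rw [mem_iUnion] at h1
    obtain ⟨d, hd⟩ := h1
    refine ⟨d, ⟨q, hq⟩, ?_, rfl, ?_⟩
    · simpa using hd
    · simp

/-- Covering compactness from compactness of fineness. -/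
theorem covered_of_compact
    (hcomp : ∀ (S : Type) (C : ℕ → SimpleGraph S), Antitone C → #S ≤ Cardinal.aleph 2 →
      (∀ A : Set S, #A ≤ Cardinal.aleph 1 → Fine C A) → Fine C univ)
    (G : SimpleGraph L) (P : Set (L × (ℕ → Y))) (hP : #P ≤ Cardinal.aleph 2)
    (hloc : ∀ Q ⊆ P, #Q ≤ Cardinal.aleph 1 → Covered G Q) : Covered G P := by
  refine covered_of_fine G P (hcomp P _ (pairGraph_antitone G P) hP (fun A hA => ?_))
  refine fine_of_covered G P A (hloc _ ?_ (Cardinal.mk_image_le.trans hA))
  rintro _ ⟨a, -, rfl⟩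
  exact a.2

end Pool.Agent.Lib.IncompactC
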