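import Mathlib

/-!
# Decreasing sequences of graphs, and countable chromatic number

Let `C 0 ⊇ C 1 ⊇ ...` be a decreasing sequence of graphs on a set `S`.  A subset `A` of `S` is *fine* if
it is covered by sets `B d` (`d < ω`) such that the graph `C d` is countably chromatic on `B d`.

Given reals `z i` (`i ∈ I`), let `graph C z` be the graph on `S × I` in which `(a, i)` and `(b, j)` are
joined if `a, b` are joined in `C d` where `d` is the first place at which `z i` and `z j` differ.

* A fine set gives a countably chromatic subgraph (`coloring_of_fine`).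
* If `I` is uncountable, the reals are distinct and the graph is countably chromatic, then `S` is fine
  (`fine_of_coloring`).

So fineness of a set `S` (relative to a decreasing sequence of graphs) is the same as countable
chromaticity of one graph on `|S| + ℵ₁` vertices.
-/

open Set

namespace Pool.Agent.Lib.IncompactC

variable {S I : Type}

/-- `A` is fine relative to the sequence of graphs `C`: it is covered by sets `B d` on which `C d` is
countably chromatic. -/
def Fine (C : ℕ → SimpleGraph S) (A : Set S) : Prop :=
  ∃ B : ℕ → Set S, A ⊆ ⋃ d, B d ∧ ∀ d, Nonempty (((C d).induce (B d)).Coloring ℕ)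

/-- The graph: joined at the first difference of the reals. -/
def graph (C : ℕ → SimpleGraph S) (z : I → ℕ → Bool) : SimpleGraph (S × I) where
  Adj v w := ∃ d, (∀ j < d, z v.2 j = z w.2 j) ∧ z v.2 d ≠ z w.2 d ∧ (C d).Adj v.1 w.1
  symm := ⟨fun _ _ h => by
    obtain ⟨d, h2, h3, h4⟩ := h
    exact ⟨d, fun j hj => (h2 j hj).symm, h3.symm, h4.symm⟩⟩
  loopless := ⟨fun _ h => by
    obtain ⟨d, -, h, -⟩ := h
    exact h rfl⟩

theorem map_range_eq {A : Type} {p q : ℕ → A} {k : ℕ} :
    (List.range k).map p = (List.range k).map q ↔ ∀ j < k, p j = q j := by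
  rw [List.map_inj_left]
  simp [List.mem_range]

/-- A set of vertices of the graph over a fine set induces a countably chromatic graph. -/
theorem coloring_of_fine (C : ℕ → SimpleGraph S) (hC : Antitone C) (z : I → ℕ → Bool)
    (W : Set (S × I)) (hW : Fine C (Prod.fst '' W)) :
    Nonempty (((graph C z).induce W).Coloring ℕ) := by
  classical
  obtain ⟨B, hB, hc⟩ := hW
  have hk : ∀ v : W, ∃ d, v.1.1 ∈ B d := fun v => by
    have h := hB ⟨v.1, v.2, rfl⟩
    rwa [mem_iUnion] at h
  choose k hk using hk
  let c := fun d => (hc d).some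
  let col : W → ℕ × List Bool × ℕ := fun v =>
    (k v, (List.range (k v)).map (z v.1.2), c (k v) ⟨_, hk v⟩)
  have hcol : ∀ v w : W, ((graph C z).induce W).Adj v w → col v ≠ col w := by
    intro v w hadj heq
    have hadj' : (graph C z).Adj v.1 w.1 := hadj
    obtain ⟨d, h2, h3, h4⟩ := hadj'
    have e1 : k v = k w := congrArg Prod.fst heq
    have e2 : (List.range (k v)).map (z v.1.2) = (List.range (k w)).map (z w.1.2) :=
      congrArg (fun x => x.2.1) heq
    have e3 : c (k v) ⟨_, hk v⟩ = c (k w) ⟨_, hk w⟩ := congrArg (fun x => x.2.2) heq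
    rw [← e1, map_range_eq] at e2
    have hd : k v ≤ d := by
      by_contra hlt
      exact h3 (e2 d (not_le.1 hlt))
    have key : ∀ (d' d'' : ℕ) (_ : d' = d'') (_ : d' ≤ d) (a b : S) (ha : a ∈ B d') (hb : b ∈ B d''),
        (C d).Adj a b → c d' ⟨a, ha⟩ ≠ c d'' ⟨b, hb⟩ := by
      rintro d' d'' rfl hd' a b ha hb hab
      exact (c d').valid (v := ⟨a, ha⟩) (w := ⟨b, hb⟩) (hC hd' hab)
    exact key _ _ e1 hd _ _ (hk v) (hk w) h4 e3
  refine ⟨SimpleGraph.Coloring.mk (fun v => Encodable.encode (col v)) ?_⟩
  intro v w hadj heq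
  exact hcol v w hadj (Encodable.encode_injective heq)

/-- If the graph built with uncountably many distinct reals is countably chromatic, then the whole set
is fine. -/
theorem fine_of_coloring (C : ℕ → SimpleGraph S) (z : I → ℕ → Bool) (hI : ¬ Countable I)
    (hz : Function.Injective z) (f : (graph C z).Coloring ℕ) : Fine C univ := by
  classical
  let L : List Bool → ℕ → Set S := fun s n =>
    {a | ∃ i, f (a, i) = n ∧ (List.range s.length).map (z i) = s}
  let B : ℕ → Set S := fun d =>
    {a | ∃ s n, s.length = d + 1 ∧ a ∈ L s n ∧ ∀ b ∈ L s n, ¬ (C d).Adj a b}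
  refine ⟨B, fun a _ => ?_, fun d => ?_⟩
  · rw [mem_iUnion]
    by_contra hcon
    push Not at hcon
    -- two reals with the same colour
    have h1 : ∃ i i' : I, i ≠ i' ∧ f (a, i) = f (a, i') := by
      by_contra h
      push Not at h
      apply hI
      have hinj : Function.Injective (fun i : I => f (a, i)) := by
        intro i i' hii
        by_contra hne
        exact h i i' hne hii
      exact hinj.countable
    obtain ⟨i, i', hne, hff⟩ := h1
    have h2 : ∃ d, z i d ≠ z i' d := by
      by_contra h
      push Not at h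
      exact hne (hz (funext h))
    let d := Nat.find h2
    have hd : z i d ≠ z i' d := Nat.find_spec h2
    have hd' : ∀ j < d, z i j = z i' j := fun j hj => by
      have := Nat.find_min h2 hj
      push Not at this
      exact this
    let s : List Bool := (List.range (d + 1)).map (z i')
    have hls : s.length = d + 1 := by simp [s]
    have hmem : a ∈ L s (f (a, i')) := ⟨i', rfl, by rw [hls]⟩
    have h4 : ∃ b ∈ L s (f (a, i')), (C d).Adj a b := by
      by_contra h
      push Not at h
      exact hcon d ⟨s, _, hls, hmem, h⟩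
    obtain ⟨b, ⟨j, hj1, hj2⟩, hadj⟩ := h4
    rw [hls] at hj2
    have hj3 : ∀ l < d + 1, z j l = z i' l := map_range_eq.1 hj2
    have hA : (graph C z).Adj (a, i) (b, j) := by
      refine ⟨d, fun l hl => ?_, ?_, hadj⟩
      · rw [hj3 l (by omega)]
        exact hd' l hl
      · rw [hj3 d (by omega)]
        exact hd
    exact f.valid hA (by rw [hff, hj1])
  · have h : ∀ a : B d, ∃ x : List Bool × ℕ, a.1 ∈ L x.1 x.2 ∧
        ∀ b ∈ L x.1 x.2, ¬ (C d).Adj a.1 b := by
      rintro ⟨a, s, n, -, h1, h2⟩
      exact ⟨(s, n), h1, h2⟩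
    choose x hx1 hx2 using h
    refine ⟨SimpleGraph.Coloring.mk (fun a => Encodable.encode (x a)) ?_⟩
    intro a b hadj heq
    have heq' := Encodable.encode_injective heq
    refine hx2 a b.1 ?_ hadj
    rw [heq']
    exact hx1 b

end Pool.Agent.Lib.IncompactC
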