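import Pool.Agent.Lib.IncompactC.Reflect

/-!
# Covering compactness implies the reflection of small stationary families
-/

open Set Cardinal

namespace Pool.Agent.Lib.IncompactC

variable {α : Type} [LinearOrder α] [WellFoundedLT α]

theorem countable_lists {β : Type} (u : Finset β) : {t : List β | ∀ y ∈ t, y ∈ u}.Countable := by
  have h : {t : List β | ∀ y ∈ t, y ∈ u} ⊆ Set.range (fun t : List u => t.map Subtype.val) := by
    intro t ht
    refine ⟨t.attachWith (· ∈ u) ht, ?_⟩
    simp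
  exact (Set.countable_range _).mono h

theorem exists_range {β : Type} (p : ℕ → β) [DecidableEq β] (u : Finset β) (hu : ↑u ⊆ Set.range p) :
    ∃ k, u ⊆ ((List.range k).map p).toFinset := by
  induction u using Finset.induction_on with
  | empty => exact ⟨0, by simp⟩
  | insert y u hy ih =>
    have h1 : ↑u ⊆ Set.range p := fun z hz => hu (by simp [hz])
    obtain ⟨k, hk⟩ := ih h1
    obtain ⟨n, hn⟩ : y ∈ Set.range p := hu (by simp)
    refine ⟨max k (n + 1), ?_⟩
    intro z hz
    rw [List.mem_toFinset, List.mem_map]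
    rcases Finset.mem_insert.1 hz with rfl | hz
    · exact ⟨n, by simp, hn⟩
    · have h2 := hk hz
      rw [List.mem_toFinset, List.mem_map] at h2
      obtain ⟨j, hj, hj'⟩ := h2
      refine ⟨j, ?_, hj'⟩
      rw [List.mem_range] at hj ⊢
      exact lt_max_of_lt_left hj

/-- **Reflection.**  If small families of pairs are covered as soon as their subfamilies of size at most
`ℵ₁` are, then every stationary family of at most `ℵ₂` countable sets reflects. -/
theorem reflect (S : Setting α)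
    (bound : ∀ (J : Type) (f : J → α), #J ≤ Cardinal.aleph 1 → ∃ b, ∀ j, f j < b)
    (hcomp : ∀ P : Set (α × (ℕ → α)), #P ≤ Cardinal.aleph 2 →
      (∀ Q ⊆ P, #Q ≤ Cardinal.aleph 1 → Covered ⊤ Q) → Covered ⊤ P)
    (X : Set (Set α)) (hX : #X ≤ Cardinal.aleph 2) (hst : Stat X univ) :
    ∃ x, ¬ (Iio x).Countable ∧ Stat X (Iio x) := by
  classical
  by_contra hcon
  push Not at hcon
  -- the witnesses of nonreflection
  have hex : ∀ γ : α, ∃ F : Finset α → Set α, (∀ u, (F u).Countable) ∧ (∀ u, F u ⊆ Iio γ) ∧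
      (¬ (Iio γ).Countable → ∀ a ∈ X, a ⊆ Iio γ → a.Countable → ¬ Closed F a) := by
    intro γ
    by_cases hγ : (Iio γ).Countable
    · exact ⟨fun _ => ∅, fun _ => Set.countable_empty, fun _ => Set.empty_subset _,
        fun h => absurd hγ h⟩
    · have h := hcon γ hγ
      unfold Stat at h
      push Not at h
      obtain ⟨F, h1, h2, h3⟩ := h
      exact ⟨F, h1, h2, fun _ => h3⟩
  choose F hFc hFsub hFX using hex
  -- the closed members of `X`
  let X' : Set (Set α) := {a | a ∈ X ∧ a.Countable ∧ Closed (cl S.o S.ι) a}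
  have hoa : ∀ a : X', S.o ∈ a.1 := fun a => a.2.2.2 ∅ (by simp) (Or.inl (Or.inl (Or.inl rfl)))
  have hp : ∀ a : X', ∃ p : ℕ → α, a.1 = Set.range p := fun a =>
    a.2.2.1.exists_eq_range ⟨_, hoa a⟩
  choose p hp using hp
  have hne : ∀ a : X', ∃ y, y < S.o ∧ y ∉ a.1 := by
    intro a
    by_contra h
    push Not at h
    exact S.unc (a.2.2.1.mono (fun y hy => h y hy))
  have hne' : ∀ a : X', (a.1ᶜ).Nonempty := fun a => by
    obtain ⟨y, -, hy⟩ := hne a
    exact ⟨y, hy⟩
  let δ : X' → α := fun a => wellFounded_lt.min (a.1ᶜ) (hne' a)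
  have hδ1 : ∀ a : X', δ a ∉ a.1 := fun a => wellFounded_lt.min_mem (a.1ᶜ) (hne' a)
  have hδ2 : ∀ a : X', ∀ y < δ a, y ∈ a.1 := by
    intro a y hy
    by_contra h
    exact wellFounded_lt.not_lt_min (a.1ᶜ) (x := y) h hy
  have hδo : ∀ a : X', δ a < S.o := by
    intro a
    obtain ⟨y, h1, h2⟩ := hne a
    by_contra h
    exact h2 (hδ2 a y (h1.trans_le (not_lt.1 h)))
  have hδ : ∀ a : X', ∀ ξ, ξ < S.o → (ξ ∈ a.1 ↔ ξ < δ a) := by
    intro a ξ hξ
    constructor
    · intro h
      by_contra hle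
      rcases (not_lt.1 hle).lt_or_eq with hlt | heq
      · apply hδ1 a
        refine a.2.2.2 {ξ} (by simpa using h) ?_
        exact Or.inl (Or.inl (Or.inr ⟨ξ, by simp, hξ, hlt⟩))
      · exact hδ1 a (by rw [heq]; exact h)
    · exact hδ2 a ξ
  let P : Set (α × (ℕ → α)) := Set.range (fun a : X' => (δ a, p a))
  have hP : #P ≤ Cardinal.aleph 2 := by
    refine Cardinal.mk_range_le.trans (le_trans ?_ hX)
    exact Cardinal.mk_le_mk_of_subset (fun a ha => ha.1)
  have hcov : Covered ⊤ P := by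
    refine hcomp P hP (fun Q hQ hQc => ?_)
    -- a bound for all the sets occurring in `Q`
    obtain ⟨b, hb⟩ := bound (Q × ℕ) (fun q => q.1.1.2 q.2) (by
      rw [Cardinal.mk_prod]
      simp only [Cardinal.lift_id, Cardinal.mk_nat]
      exact Cardinal.mul_le_of_le (Cardinal.aleph0_le_aleph 1) hQc (Cardinal.aleph0_le_aleph 1))
    obtain ⟨b', hb'⟩ := bound PUnit (fun _ => S.o) (by
      simp only [Cardinal.mk_punit]
      exact Cardinal.one_le_aleph0.trans (Cardinal.aleph0_le_aleph 1))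
    let x := max b b'
    have hox : S.o < x := lt_max_of_lt_right (hb' PUnit.unit)
    let m : List α → Set α := fun t =>
      {ξ | ξ < S.o ∧ ∃ u, u ⊆ t.toFinset ∧ ∃ η ∈ S.H F x u, ξ ≤ η ∧ η < S.o}
    have hm : ∀ t, (m t).Countable := by
      intro t
      have hsub : m t ⊆ ⋃ u ∈ (t.toFinset.powerset : Set (Finset α)),
          ⋃ η ∈ {η | η ∈ S.H F x u ∧ η < S.o}, Iic η := by
        rintro ξ ⟨-, u, h1, η, h2, h3, h4⟩
        simp only [mem_iUnion]
        exact ⟨u, Finset.mem_coe.2 (Finset.mem_powerset.2 h1), η, ⟨h2, h4⟩, h3⟩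
      refine Countable.mono hsub ?_
      refine Countable.biUnion (Finset.countable_toSet _) (fun u _ => ?_)
      refine Countable.biUnion ((S.H_countable F hFc x u).mono (fun η hη => hη.1)) (fun η hη => ?_)
      rw [← Set.Iio_insert]
      exact (S.cnt η hη.2).insert η
    refine ⟨m, fun t => top_coloring_of_countable (hm t), fun q hq => ?_⟩
    obtain ⟨a, ha⟩ : q ∈ P := hQ hq
    subst ha
    by_contra hno
    push Not at hno
    have hax : a.1 ⊆ Iio x := by
      intro y hy
      rw [hp a] at hy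
      obtain ⟨n, rfl⟩ := hy
      exact (hb (⟨_, hq⟩, n)).trans_le (le_max_left _ _)
    obtain ⟨γ, h1, h2, h3⟩ := S.standard F (x := x) (δ := δ a) (a := a.1) hFsub hox hax a.2.2.2
      (hδo a) (hδ a) (by
        intro u hu η hη hηo
        by_contra hle
        rw [hp a] at hu
        obtain ⟨k, hk⟩ := exists_range (p a) u hu
        exact hno k ⟨hδo a, u, hk, η, hη, not_lt.1 hle, hηo⟩)
    have hunc : ¬ (Iio γ).Countable := fun h =>
      S.unc (h.mono (fun y hy => lt_trans hy h1))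
    exact hFX γ hunc a.1 a.2.1 h2 a.2.2.1 h3
  obtain ⟨m, hm, hmP⟩ := hcov
  have hm' : ∀ t, (m t).Countable := fun t => countable_of_top_coloring (hm t)
  -- use stationarity
  let G : Finset α → Set α := fun u => cl S.o S.ι u ∪ ⋃ t ∈ {t : List α | ∀ y ∈ t, y ∈ u}, m t
  obtain ⟨a, haX, -, hac, haG⟩ := hst G (fun u =>
    (S.cl_countable u).union (Countable.biUnion (countable_lists u) (fun t _ => hm' t)))
    (fun _ => Set.subset_univ _)
  have ha' : a ∈ X' := ⟨haX, hac, fun u hu => Set.subset_union_left.trans (haG u hu)⟩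
  obtain ⟨k, hk⟩ := hmP _ ⟨⟨a, ha'⟩, rfl⟩
  apply hδ1 ⟨a, ha'⟩
  refine haG ((List.range k).map (p ⟨a, ha'⟩)).toFinset ?_ (Or.inr ?_)
  · intro y hy
    rw [Finset.mem_coe, List.mem_toFinset, List.mem_map] at hy
    obtain ⟨n, -, rfl⟩ := hy
    have h1 : a = Set.range (p ⟨a, ha'⟩) := hp ⟨a, ha'⟩
    have h2 : p ⟨a, ha'⟩ n ∈ Set.range (p ⟨a, ha'⟩) := ⟨n, rfl⟩
    rw [← h1] at h2
    exact h2
  · simp only [mem_iUnion]
    exact ⟨(List.range k).map (p ⟨a, ha'⟩), fun y hy => List.mem_toFinset.2 hy, hk⟩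

end Pool.Agent.Lib.IncompactC
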