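import Pool.Agent.Lib.H45R.Reduction
import Pool.Agent.Lib.IncompactC.Main

/-!
# The setting of `ω₂`, and the consequences of a negative answer to Q1
-/

open Cardinal Ordinal Set

namespace Pool.Agent.Lib.IncompactC

open Pool.Agent.Results.MP_d06690_lc.Reduction

theorem mk_Iio_toType {o : Ordinal.{0}} (y : o.ToType) :
    #(Set.Iio y) = (Ordinal.ToType.mk.symm y).1.card := by
  have e : Set.Iio y ≃ Set.Iio (Ordinal.ToType.mk.symm y).1 :=
    { toFun := fun a => ⟨(Ordinal.ToType.mk.symm a.1).1, by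
        have h : Ordinal.ToType.mk.symm a.1 < Ordinal.ToType.mk.symm y :=
          Ordinal.ToType.mk.symm.lt_iff_lt.2 a.2
        exact h⟩
      invFun := fun b => ⟨Ordinal.ToType.mk ⟨b.1, mem_Iio.2
        (lt_trans (mem_Iio.1 b.2) (mem_Iio.1 (Ordinal.ToType.mk.symm y).2))⟩, by
        rw [mem_Iio, ← Ordinal.ToType.mk.symm.lt_iff_lt, OrderIso.symm_apply_apply]
        exact b.2⟩
      left_inv := fun a => by simp
      right_inv := fun b => by simp }
  have h := Cardinal.lift_mk_eq'.2 ⟨e⟩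
  rw [Cardinal.mk_Iio_ordinal, Cardinal.lift_lift] at h
  exact Cardinal.lift_injective.{1, 0} (by simpa using h)

theorem w1_lt_w2 : w1 < w2 := by
  rw [Cardinal.ord_lt_ord, Cardinal.aleph_lt_aleph]
  exact one_lt_two

/-- The point `ω₁` of `ω₂`. -/
noncomputable def pt : w2.ToType := Ordinal.ToType.mk ⟨w1, w1_lt_w2⟩

theorem mk_Iio_pt : #(Set.Iio pt) = Cardinal.aleph 1 := by
  rw [mk_Iio_toType]
  unfold pt
  rw [OrderIso.symm_apply_apply, Cardinal.card_ord]

theorem mk_Iio_le (y : w2.ToType) : #(Set.Iio y) ≤ Cardinal.aleph 1 := by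
  rw [mk_Iio_toType]
  exact card_lt_of_lt (Ordinal.ToType.mk.symm y).2

theorem exists_inj (γ : w2.ToType) : ∃ f : w2.ToType → w2.ToType, (∀ β < γ, f β < pt) ∧
    ∀ β < γ, ∀ β' < γ, f β = f β' → β = β' := by
  classical
  have h : #(Set.Iio γ) ≤ #(Set.Iio pt) := by
    rw [mk_Iio_pt]
    exact mk_Iio_le γ
  obtain ⟨g⟩ := (Cardinal.le_def _ _).1 h
  refine ⟨fun β => if h : β < γ then (g ⟨β, h⟩).1 else β, fun β hβ => ?_, fun β hβ β' hβ' he => ?_⟩
  · simp only [hβ, dif_pos]
    exact (g ⟨β, hβ⟩).2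
  · simp only [hβ, hβ', dif_pos] at he
    have h1 := g.injective (Subtype.ext he)
    exact congrArg Subtype.val h1

/-- The setting on `ω₂`. -/
noncomputable def setting : Setting w2.ToType where
  o := pt
  unc := by
    intro h
    rw [← Cardinal.le_aleph0_iff_set_countable, mk_Iio_pt] at h
    exact absurd h (not_le.2 Cardinal.aleph0_lt_aleph_one)
  cnt := by
    intro y hy
    rw [← Cardinal.le_aleph0_iff_set_countable, mk_Iio_toType]
    have h1 : (Ordinal.ToType.mk.symm y).1 < w1 := by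
      have h2 : Ordinal.ToType.mk.symm y < Ordinal.ToType.mk.symm pt :=
        Ordinal.ToType.mk.symm.lt_iff_lt.2 hy
      unfold pt at h2
      rw [OrderIso.symm_apply_apply] at h2
      exact h2
    have h3 := Cardinal.lt_ord.1 h1
    rwa [← Cardinal.succ_aleph0, Order.lt_succ_iff] at h3
  ι := fun γ => (exists_inj γ).choose
  ι_lt := fun γ β hβ => (exists_inj γ).choose_spec.1 β hβ
  ι_inj := fun γ β β' hβ hβ' he => (exists_inj γ).choose_spec.2 β hβ β' hβ' he

theorem bound_w2 (J : Type) (f : J → w2.ToType) (hJ : #J ≤ Cardinal.aleph 1) :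
    ∃ b, ∀ j, f j < b := by
  obtain ⟨β, hβ, h⟩ := bdd hJ (fun j => (Ordinal.ToType.mk.symm (f j)).1)
    (fun j => (Ordinal.ToType.mk.symm (f j)).2)
  refine ⟨Ordinal.ToType.mk ⟨β, hβ⟩, fun j => ?_⟩
  rw [← Ordinal.ToType.mk.symm.lt_iff_lt, OrderIso.symm_apply_apply]
  exact h j

/-- Compactness of fineness: if `C 0 ⊇ C 1 ⊇ ...` are graphs on a set `S` with at most `ℵ₂` elements and
every subset with at most `ℵ₁` elements is fine, then `S` is fine. -/
def FineCompact : Prop :=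
  ∀ (S : Type) (C : ℕ → SimpleGraph S), Antitone C → #S ≤ Cardinal.aleph 2 →
    (∀ A : Set S, #A ≤ Cardinal.aleph 1 → Fine C A) → Fine C univ

theorem exists_reals : ∃ r : w1.ToType → ℕ → Bool, Function.Injective r := by
  have h : #(w1.ToType) ≤ #(ℕ → Bool) := by
    rw [Cardinal.mk_toType, Cardinal.card_ord]
    have h1 : #(ℕ → Bool) = 𝔠 := by
      simp
    rw [h1]
    exact Cardinal.aleph_one_le_continuum
  obtain ⟨f⟩ := (Cardinal.le_def _ _).1 h
  exact ⟨f, f.injective⟩

theorem fineCompact_of_not_incompact (h : ¬ Incompact) : FineCompact := by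
  intro S C hC hS hloc
  by_contra hfine
  apply h
  obtain ⟨r, hr⟩ := exists_reals
  have hw1 : #(w1.ToType) = Cardinal.aleph 1 := by rw [Cardinal.mk_toType, Cardinal.card_ord]
  have hunc : ¬ Countable (w1.ToType) := by
    rw [← Cardinal.mk_le_aleph0_iff, hw1, not_le]
    exact Cardinal.aleph0_lt_aleph_one
  have hS2 : #S = Cardinal.aleph 2 := by
    refine le_antisymm hS (not_lt.1 fun hlt => ?_)
    rw [lt_aleph_two] at hlt
    exact hfine (hloc univ (by rw [Cardinal.mk_univ]; exact hlt))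
  refine ⟨S × w1.ToType, graph C r, ?_, ?_, ?_⟩
  · rw [Cardinal.mk_prod, hw1, hS2]
    simp only [Cardinal.lift_id]
    refine Cardinal.mul_eq_left (Cardinal.aleph0_le_aleph 2) ?_ (Cardinal.aleph_pos 1).ne'
    rw [Cardinal.aleph_le_aleph]
    exact one_le_two
  · exact ⟨fun f => hfine (fine_of_coloring C r hunc hr f)⟩
  · intro W hW
    exact coloring_of_fine C hC r W (hloc _ (Cardinal.mk_image_le.trans hW))

theorem not_incompact_of_fineCompact (h : FineCompact) : ¬ Incompact := by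
  rintro ⟨V, H, hV, h0, hs⟩
  have h1 := h V (fun _ => H) (fun _ _ _ => le_rfl) hV.le (fun A hA =>
    ⟨fun _ => A, fun a ha => mem_iUnion.2 ⟨0, ha⟩, fun _ => hs A hA⟩)
  obtain ⟨B, hB, hc⟩ := h1
  have hk : ∀ v : V, ∃ d, v ∈ B d := fun v => mem_iUnion.1 (hB (mem_univ v))
  choose k hk using hk
  let c := fun d => (hc d).some
  refine h0.false (SimpleGraph.Coloring.mk (fun v => Nat.pair (k v) (c (k v) ⟨v, hk v⟩)) ?_)
  intro v w hadj heq
  obtain ⟨e1, e2⟩ := Nat.pair_eq_pair.1 heq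
  have key : ∀ (d d' : ℕ) (_ : d = d') (a b : V) (ha : a ∈ B d) (hb : b ∈ B d'),
      H.Adj a b → c d ⟨a, ha⟩ ≠ c d' ⟨b, hb⟩ := by
    rintro d d' rfl a b ha hb hab
    exact (c d).valid (v := ⟨a, ha⟩) (w := ⟨b, hb⟩) hab
  exact key _ _ e1 _ _ (hk v) (hk w) hadj e2

/-- Reflection of small stationary families of countable subsets of `ω₂`. -/
theorem reflect_w2 (h : FineCompact) (X : Set (Set w2.ToType)) (hX : #X ≤ Cardinal.aleph 2)
    (hst : Stat X univ) : ∃ x, ¬ (Set.Iio x).Countable ∧ Stat X (Set.Iio x) :=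
  reflect setting bound_w2 (fun P hP hloc => covered_of_compact h ⊤ P hP hloc) X hX hst

end Pool.Agent.Lib.IncompactC
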