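import Pool.Agent.Lib.IncompactC.Cover

/-!
# Reflection of small stationary families of countable sets from covering compactness

`Stat X B` says that `X` is stationary in the set of countable subsets of `B`: for every function `F`
from the finite subsets of `B` to the countable subsets of `B` there is a countable `a ∈ X`, `a ⊆ B`,
with `F u ⊆ a` for all finite `u ⊆ a`.

Let `α` be a well-order with a point `o` such that the initial segments below `o` are countable, the
initial segment of `o` is uncountable, every initial segment injects into that of `o`, and small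
families are bounded (as in `ω₂`, with `o = ω₁`).  If a stationary set `X` of countable subsets of `α` does
not reflect to any initial segment, then the family of the pairs `(min (α \ a), enumeration of a)`
(`a ∈ X` closed under certain functions) is not covered, but all its small subfamilies are.
-/

open Set

namespace Pool.Agent.Lib.IncompactC

variable {α : Type}

/-- `a` is closed under `F`: `F u ⊆ a` for every finite `u ⊆ a`. -/
def Closed (F : Finset α → Set α) (a : Set α) : Prop := ∀ u : Finset α, ↑u ⊆ a → F u ⊆ a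

/-- `X` is stationary in the set of countable subsets of `B`: for every function `F` from finite sets
to countable subsets of `B` there is a countable `a ∈ X` with `a ⊆ B` and `F u ⊆ a` for all finite
`u ⊆ a`. -/
def Stat (X : Set (Set α)) (B : Set α) : Prop :=
  ∀ F : Finset α → Set α, (∀ u, (F u).Countable) → (∀ u, F u ⊆ B) →
    ∃ a ∈ X, a ⊆ B ∧ a.Countable ∧ Closed F a

theorem countable_of_top_coloring {L : Type} {s : Set L}
    (h : Nonempty (((⊤ : SimpleGraph L).induce s).Coloring ℕ)) : s.Countable := by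
  obtain ⟨c⟩ := h
  have hinj : Function.Injective (fun x : s => c x) := by
    intro x y hxy
    by_contra hne
    refine c.valid (v := x) (w := y) ?_ hxy
    change (⊤ : SimpleGraph L).Adj x.1 y.1
    rw [SimpleGraph.top_adj]
    exact fun h => hne (Subtype.ext h)
  exact Set.countable_coe_iff.1 hinj.countable

theorem top_coloring_of_countable {L : Type} {s : Set L} (h : s.Countable) :
    Nonempty (((⊤ : SimpleGraph L).induce s).Coloring ℕ) := by
  obtain ⟨f, hf⟩ := Set.countable_iff_exists_injective.1 h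
  refine ⟨SimpleGraph.Coloring.mk f ?_⟩
  intro v w hadj heq
  have hvw : (⊤ : SimpleGraph L).Adj v.1 w.1 := hadj
  rw [SimpleGraph.top_adj] at hvw
  exact hvw (congrArg Subtype.val (hf heq))

variable [LinearOrder α]

/-- The functions under which the sets are required to be closed. -/
def cl (o : α) (ι : α → α → α) (u : Finset α) : Set α :=
  {o} ∪ {η | ∃ ξ ∈ u, ξ < o ∧ η < ξ} ∪ {η | ∃ γ ∈ u, ∃ β ∈ u, β < γ ∧ η = ι γ β} ∪
    {β | ∃ γ ∈ u, β < γ ∧ ι γ β ∈ u}

/-- The setting. -/
structure Setting (α : Type) [LinearOrder α] where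
  /-- the point `ω₁` -/
  o : α
  unc : ¬ (Iio o).Countable
  cnt : ∀ y < o, (Iio y).Countable
  /-- injections of the initial segments into that of `o` -/
  ι : α → α → α
  ι_lt : ∀ γ β, β < γ → ι γ β < o
  ι_inj : ∀ γ β β', β < γ → β' < γ → ι γ β = ι γ β' → β = β'

namespace Setting

variable (S : Setting α)

theorem fib_countable (γ : α) (s : Set α) (hs : s.Countable) :
    {β | β < γ ∧ S.ι γ β ∈ s}.Countable := by
  have h : Set.MapsTo (S.ι γ) {β | β < γ ∧ S.ι γ β ∈ s} s := fun β hβ => hβ.2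
  exact h.countable_of_injOn (fun β hβ β' hβ' e => S.ι_inj γ β β' hβ.1 hβ'.1 e) hs

theorem cl_countable (u : Finset α) : (cl S.o S.ι u).Countable := by
  unfold cl
  refine ((((Set.countable_singleton _).union ?_).union ?_).union ?_)
  · have : {η | ∃ ξ ∈ u, ξ < S.o ∧ η < ξ} ⊆ ⋃ ξ ∈ {ξ | ξ ∈ u ∧ ξ < S.o}, Iio ξ := by
      rintro η ⟨ξ, h1, h2, h3⟩
      simp only [mem_iUnion, mem_ofPred_eq]
      exact ⟨ξ, ⟨h1, h2⟩, h3⟩
    refine Countable.mono this ?_
    refine Countable.biUnion ?_ (fun ξ hξ => S.cnt ξ hξ.2)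
    exact (u.countable_toSet).mono (fun ξ hξ => hξ.1)
  · have : {η | ∃ γ ∈ u, ∃ β ∈ u, β < γ ∧ η = S.ι γ β} ⊆
        (fun q : α × α => S.ι q.1 q.2) '' ((u : Set α) ×ˢ (u : Set α)) := by
      rintro η ⟨γ, h1, β, h2, -, rfl⟩
      exact ⟨(γ, β), ⟨h1, h2⟩, rfl⟩
    exact Countable.mono this ((u.countable_toSet.prod u.countable_toSet).image _)
  · have : {β | ∃ γ ∈ u, β < γ ∧ S.ι γ β ∈ u} ⊆
        ⋃ γ ∈ (u : Set α), {β | β < γ ∧ S.ι γ β ∈ (u : Set α)} := by
      rintro β ⟨γ, h1, h2, h3⟩
      simp only [mem_iUnion]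
      exact ⟨γ, h1, h2, h3⟩
    exact Countable.mono this (Countable.biUnion u.countable_toSet
      (fun γ _ => S.fib_countable γ _ u.countable_toSet))

/-- The inverse of the injection `ι x`. -/
noncomputable def e (x ξ : α) : α :=
  open Classical in if h : ∃ β, β < x ∧ S.ι x β = ξ then h.choose else ξ

theorem e_ι {x β : α} (h : β < x) : S.e x (S.ι x β) = β := by
  have hex : ∃ β', β' < x ∧ S.ι x β' = S.ι x β := ⟨β, h, rfl⟩
  unfold e
  rw [dif_pos hex]
  exact S.ι_inj x _ _ hex.choose_spec.1 h hex.choose_spec.2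

variable (F : α → Finset α → Set α)

/-- The closure functions for the initial segment of `x`. -/
def K (x : α) (w : Finset α) : Set α :=
  F x w ∪ {η | ∃ γ ∈ w, ∃ β ∈ w, β < γ ∧ η = S.ι γ β} ∪ {β | ∃ γ ∈ w, β < γ ∧ S.ι γ β ∈ w} ∪
    {η | ∃ γ ∈ w, η ∈ F γ (w.filter (· < γ))}

theorem K_countable (hF : ∀ γ u, (F γ u).Countable) (x : α) (w : Finset α) :
    (S.K F x w).Countable := by
  unfold K
  refine ((((hF x w).union ?_).union ?_).union ?_)
  · have : {η | ∃ γ ∈ w, ∃ β ∈ w, β < γ ∧ η = S.ι γ β} ⊆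
        (fun q : α × α => S.ι q.1 q.2) '' ((w : Set α) ×ˢ (w : Set α)) := by
      rintro η ⟨γ, h1, β, h2, -, rfl⟩
      exact ⟨(γ, β), ⟨h1, h2⟩, rfl⟩
    exact Countable.mono this ((w.countable_toSet.prod w.countable_toSet).image _)
  · have : {β | ∃ γ ∈ w, β < γ ∧ S.ι γ β ∈ w} ⊆
        ⋃ γ ∈ (w : Set α), {β | β < γ ∧ S.ι γ β ∈ (w : Set α)} := by
      rintro β ⟨γ, h1, h2, h3⟩
      simp only [mem_iUnion]
      exact ⟨γ, h1, h2, h3⟩
    exact Countable.mono this (Countable.biUnion w.countable_toSet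
      (fun γ _ => S.fib_countable γ _ w.countable_toSet))
  · have : {η | ∃ γ ∈ w, η ∈ F γ (w.filter (· < γ))} ⊆
        ⋃ γ ∈ (w : Set α), F γ (w.filter (· < γ)) := by
      rintro η ⟨γ, h1, h2⟩
      simp only [mem_iUnion]
      exact ⟨γ, h1, h2⟩
    exact Countable.mono this (Countable.biUnion w.countable_toSet (fun γ _ => hF _ _))

/-- The countable set of ordinals below `o` attached to a finite set. -/
def H [DecidableEq α] (x : α) (u : Finset α) : Set α :=
  (S.ι x '' (u : Set α)) ∪ (S.ι x '' (S.K F x (u.image (S.e x)))) ∪ (S.e x '' (u : Set α))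

theorem H_countable [DecidableEq α] (hF : ∀ γ u, (F γ u).Countable) (x : α) (u : Finset α) :
    (S.H F x u).Countable :=
  ((u.countable_toSet.image _).union ((S.K_countable F hF x _).image _)).union
    (u.countable_toSet.image _)

/-- The main point: if `δ < o` bounds all the values `H u` (below `o`) for the finite subsets `u` of a
closed set `a` below `x` with `a ∩ Iio o = Iio δ`, then `a` is standard, so it is closed under one of
the functions `F γ`. -/
theorem standard [WellFoundedLT α] [DecidableEq α] {x δ : α} {a : Set α}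
    (hFsub : ∀ γ u, F γ u ⊆ Iio γ) (hox : S.o < x)
    (hax : a ⊆ Iio x) (hcl : Closed (cl S.o S.ι) a) (hδo : δ < S.o)
    (haδ : ∀ ξ, ξ < S.o → (ξ ∈ a ↔ ξ < δ))
    (hH : ∀ u : Finset α, ↑u ⊆ a → ∀ η ∈ S.H F x u, η < S.o → η < δ) :
    ∃ γ, S.o < γ ∧ a ⊆ Iio γ ∧ Closed (F γ) a := by
  -- the standard set `E`
  let E : Set α := {β | β < x ∧ S.ι x β < δ}
  have hEx : ∀ β, β ∈ E ↔ β < x ∧ S.ι x β < δ := fun β => Iff.rfl
  have haE : a ⊆ E := by
    intro β hβ
    have hβx : β < x := hax hβ
    refine ⟨hβx, hH {β} (by simpa using hβ) _ ?_ (S.ι_lt x β hβx)⟩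
    exact Or.inl (Or.inl ⟨β, by simp, rfl⟩)
  -- a finite subset of `E` comes from a finite subset of `a`
  have hpull : ∀ w : Finset α, ↑w ⊆ E → ↑(w.image (S.ι x)) ⊆ a ∧ (w.image (S.ι x)).image (S.e x) = w := by
    intro w hw
    constructor
    · intro η hη
      rw [Finset.coe_image] at hη
      obtain ⟨β, hβ, rfl⟩ := hη
      have h1 := hw hβ
      exact (haδ _ (S.ι_lt x β h1.1)).2 h1.2
    · rw [Finset.image_image]
      conv_rhs => rw [← Finset.image_id (s := w)]
      refine Finset.image_congr ?_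
      intro β hβ
      exact S.e_ι (hw hβ).1
  have hKE : ∀ w : Finset α, ↑w ⊆ E → ∀ β ∈ S.K F x w, β < x → β ∈ E := by
    intro w hw β hβ hβx
    obtain ⟨h1, h2⟩ := hpull w hw
    refine ⟨hβx, hH _ h1 _ ?_ (S.ι_lt x β hβx)⟩
    refine Or.inl (Or.inr ⟨β, ?_, rfl⟩)
    rw [h2]
    exact hβ
  have hEo : ∀ ξ, ξ < S.o → (ξ ∈ E ↔ ξ < δ) := by
    intro ξ hξ
    constructor
    · intro h
      have h1 : S.ι x ξ ∈ a := (haδ _ (S.ι_lt x ξ h.1)).2 h.2
      have h2 := hH {S.ι x ξ} (by simpa using h1) ξ (Or.inr ⟨S.ι x ξ, by simp, S.e_ι h.1⟩) hξ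
      exact h2
    · intro h
      exact haE ((haδ ξ hξ).2 h)
  have hEγ : ∀ γ ∈ E, ∀ β < γ, (β ∈ E ↔ S.ι γ β < δ) := by
    intro γ hγ β hβγ
    have hβx : β < x := hβγ.trans hγ.1
    have hιo := S.ι_lt γ β hβγ
    constructor
    · intro hβ
      have h1 : S.ι γ β ∈ S.K F x {γ, β} :=
        Or.inl (Or.inl (Or.inr ⟨γ, by simp, β, by simp, hβγ, rfl⟩))
      have h2 : S.ι γ β ∈ E := by
        refine hKE {γ, β} ?_ _ h1 (hιo.trans hox)
        intro y hy
        simp only [Finset.coe_insert, Finset.coe_singleton, mem_insert_iff, mem_singleton_iff] at hy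
        rcases hy with rfl | rfl
        · exact hγ
        · exact hβ
      exact (hEo _ hιo).1 h2
    · intro hβ
      have h0 : S.ι γ β ∈ E := (hEo _ hιo).2 hβ
      have h1 : β ∈ S.K F x {γ, S.ι γ β} :=
        Or.inl (Or.inr ⟨γ, by simp, hβγ, by simp⟩)
      refine hKE {γ, S.ι γ β} ?_ _ h1 hβx
      intro y hy
      simp only [Finset.coe_insert, Finset.coe_singleton, mem_insert_iff, mem_singleton_iff] at hy
      rcases hy with rfl | rfl
      · exact hγ
      · exact h0
  have haγ : ∀ γ ∈ a, ∀ β < γ, (β ∈ a ↔ S.ι γ β < δ) := by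
    intro γ hγ β hβγ
    have hιo := S.ι_lt γ β hβγ
    constructor
    · intro hβ
      have h1 : S.ι γ β ∈ a := by
        refine hcl {γ, β} ?_ (Or.inl (Or.inr ⟨γ, by simp, β, by simp, hβγ, rfl⟩))
        intro y hy
        simp only [Finset.coe_insert, Finset.coe_singleton, mem_insert_iff, mem_singleton_iff] at hy
        rcases hy with rfl | rfl
        · exact hγ
        · exact hβ
      exact (haδ _ hιo).1 h1
    · intro hβ
      have h0 : S.ι γ β ∈ a := (haδ _ hιo).2 hβ
      refine hcl {γ, S.ι γ β} ?_ (Or.inr ⟨γ, by simp, hβγ, by simp⟩)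
      intro y hy
      simp only [Finset.coe_insert, Finset.coe_singleton, mem_insert_iff, mem_singleton_iff] at hy
      rcases hy with rfl | rfl
      · exact hγ
      · exact h0
  have hoa : S.o ∈ a := hcl ∅ (by simp) (Or.inl (Or.inl (Or.inl rfl)))
  by_cases hEa : E ⊆ a
  · -- `a = E`
    have hEq : a = E := Subset.antisymm haE hEa
    refine ⟨x, hox, hax, ?_⟩
    rw [hEq]
    intro w hw β hβ
    exact hKE w hw β (Or.inl (Or.inl (Or.inl hβ))) (hFsub x w hβ)
  · -- `a` is a proper initial segment of `E`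
    have hne : (E \ a).Nonempty := by
      rw [Set.not_subset] at hEa
      obtain ⟨β, h1, h2⟩ := hEa
      exact ⟨β, h1, h2⟩
    let γ := wellFounded_lt.min (E \ a) hne
    have hγ : γ ∈ E \ a := wellFounded_lt.min_mem (E \ a) hne
    have hmin : ∀ β ∈ E, β < γ → β ∈ a := by
      intro β hβ hβγ
      by_contra hcon
      exact wellFounded_lt.not_lt_min (E \ a) (x := β) ⟨hβ, hcon⟩ hβγ
    have haγ' : a ⊆ Iio γ := by
      intro β hβ
      by_contra hcon
      have hle : γ ≤ β := not_lt.1 hcon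
      rcases hle.lt_or_eq with hlt | heq
      · have h1 : S.ι β γ < δ := (hEγ β (haE hβ) γ hlt).1 hγ.1
        exact hγ.2 ((haγ β hβ γ hlt).2 h1)
      · rw [heq] at hγ
        exact hγ.2 hβ
    refine ⟨γ, haγ' hoa, haγ', ?_⟩
    intro w hw β hβ
    have hβγ : β < γ := hFsub γ w hβ
    have hw' : ↑(insert γ w) ⊆ E := by
      intro y hy
      rw [Finset.coe_insert] at hy
      rcases hy with rfl | hy
      · exact hγ.1
      · exact haE (hw hy)
    refine hmin β (hKE (insert γ w) hw' β ?_ (hβγ.trans hγ.1.1)) hβγ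
    refine Or.inr ⟨γ, by simp, ?_⟩
    have : (insert γ w).filter (· < γ) = w := by
      ext y
      simp only [Finset.mem_filter, Finset.mem_insert]
      constructor
      · rintro ⟨rfl | h, h2⟩
        · exact absurd h2 (lt_irrefl _)
        · exact h
      · intro h
        exact ⟨Or.inr h, haγ' (hw h)⟩
    rw [this]
    exact hβ

end Setting

end Pool.Agent.Lib.IncompactC
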