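import Pool.Agent.Lib.IncompactC.Main

/-!
# Reflection of small weakly stationary families
-/

open Set Cardinal

namespace Pool.Agent.Lib.IncompactC

/-- `X` is weakly stationary (semistationary) in the set of countable subsets of `B`: for every function
`F` from finite sets to countable sets of points below `o` (countable ordinals, if `o = ω₁`) there is a
countable `a ∈ X` with `a ⊆ B` and `F u ⊆ a` for all finite `u ⊆ a`. -/
def WStat {α : Type} [LinearOrder α] (o : α) (X : Set (Set α)) (B : Set α) : Prop :=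
  ∀ F : Finset α → Set α, (∀ u, (F u).Countable) → (∀ u, F u ⊆ Iio o) →
    ∃ a ∈ X, a ⊆ B ∧ a.Countable ∧ Closed F a

variable {α : Type} [LinearOrder α] [WellFoundedLT α]

/-- **Weak reflection.** -/
theorem reflect_weak (S : Setting α)
    (bound : ∀ (J : Type) (f : J → α), #J ≤ Cardinal.aleph 1 → ∃ b, ∀ j, f j < b)
    (hcomp : ∀ P : Set (α × (ℕ → α)), #P ≤ Cardinal.aleph 2 →
      (∀ Q ⊆ P, #Q ≤ Cardinal.aleph 1 → Covered ⊤ Q) → Covered ⊤ P)
    (X : Set (Set α)) (hX : #X ≤ Cardinal.aleph 2) (hst : WStat S.o X univ) :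
    ∃ x, ¬ (Iio x).Countable ∧ WStat S.o X (Iio x) := by
  classical
  by_contra hcon
  push Not at hcon
  -- the nonempty countable members of `X`
  let X' : Set (Set α) := {a | a ∈ X ∧ a.Countable ∧ a.Nonempty}
  have hp : ∀ a : X', ∃ p : ℕ → α, a.1 = Set.range p := fun a =>
    a.2.2.1.exists_eq_range a.2.2.2
  choose p hp using hp
  have hne : ∀ a : X', ∃ y, y < S.o ∧ y ∉ a.1 := by
    intro a
    by_contra h
    push Not at h
    exact S.unc (a.2.2.1.mono (fun y hy => h y hy))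
  have hne' : ∀ a : X', (a.1ᶜ).Nonempty := fun a => by
    obtain ⟨y, -, hy⟩ := hne a
    exact ⟨y, hy⟩
  let δ : X' → α := fun a => wellFounded_lt.min (a.1ᶜ) (hne' a)
  have hδ1 : ∀ a : X', δ a ∉ a.1 := fun a => wellFounded_lt.min_mem (a.1ᶜ) (hne' a)
  have hδ2 : ∀ a : X', ∀ y ∉ a.1, δ a ≤ y := by
    intro a y hy
    by_contra h
    exact wellFounded_lt.not_lt_min (a.1ᶜ) (x := y) hy (not_le.1 h)
  let P : Set (α × (ℕ → α)) := Set.range (fun a : X' => (δ a, p a))
  have hP : #P ≤ Cardinal.aleph 2 := by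
    refine Cardinal.mk_range_le.trans (le_trans ?_ hX)
    exact Cardinal.mk_le_mk_of_subset (fun a ha => ha.1)
  have hcov : Covered ⊤ P := by
    refine hcomp P hP (fun Q hQ hQc => ?_)
    obtain ⟨b, hb⟩ := bound (Q × ℕ) (fun q => q.1.1.2 q.2) (by
      rw [Cardinal.mk_prod]
      simp only [Cardinal.lift_id, Cardinal.mk_nat]
      exact Cardinal.mul_le_of_le (Cardinal.aleph0_le_aleph 1) hQc (Cardinal.aleph0_le_aleph 1))
    obtain ⟨b', hb'⟩ := bound PUnit (fun _ => S.o) (by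
      simp only [Cardinal.mk_punit]
      exact Cardinal.one_le_aleph0.trans (Cardinal.aleph0_le_aleph 1))
    let x := max b b'
    have hox : S.o < x := lt_max_of_lt_right (hb' PUnit.unit)
    have hxunc : ¬ (Iio x).Countable := fun h =>
      S.unc (h.mono (fun y hy => lt_trans hy hox))
    have hx := hcon x hxunc
    unfold WStat at hx
    push Not at hx
    obtain ⟨F, hF1, hF2, hF3⟩ := hx
    let m : List α → Set α := fun t =>
      {ξ | ∃ u, u ⊆ t.toFinset ∧ ∃ η ∈ F u, ξ ≤ η}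
    have hm : ∀ t, (m t).Countable := by
      intro t
      have hsub : m t ⊆ ⋃ u ∈ (t.toFinset.powerset : Set (Finset α)), ⋃ η ∈ F u, Iic η := by
        rintro ξ ⟨u, h1, η, h2, h3⟩
        simp only [mem_iUnion]
        exact ⟨u, Finset.mem_coe.2 (Finset.mem_powerset.2 h1), η, h2, h3⟩
      refine Countable.mono hsub ?_
      refine Countable.biUnion (Finset.countable_toSet _) (fun u _ => ?_)
      refine Countable.biUnion (hF1 u) (fun η hη => ?_)
      rw [← Set.Iio_insert]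
      exact (S.cnt η (hF2 u hη)).insert η
    refine ⟨m, fun t => top_coloring_of_countable (hm t), fun q hq => ?_⟩
    obtain ⟨a, ha⟩ : q ∈ P := hQ hq
    subst ha
    have hax : a.1 ⊆ Iio x := by
      intro y hy
      rw [hp a] at hy
      obtain ⟨n, rfl⟩ := hy
      exact (hb (⟨_, hq⟩, n)).trans_le (le_max_left _ _)
    have h1 := hF3 a.1 a.2.1 hax a.2.2.1
    unfold Closed at h1
    push Not at h1
    obtain ⟨u, hu, h2⟩ := h1
    rw [Set.not_subset] at h2
    obtain ⟨η, hη1, hη2⟩ := h2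
    rw [hp a] at hu
    obtain ⟨k, hk⟩ := exists_range (p a) u hu
    exact ⟨k, u, hk, η, hη1, hδ2 a η hη2⟩
  obtain ⟨m, hm, hmP⟩ := hcov
  have hm' : ∀ t, (m t).Countable := fun t => countable_of_top_coloring (hm t)
  obtain ⟨ξ₀, hξ₀⟩ : ∃ ξ₀, ξ₀ < S.o := by
    by_contra h
    push Not at h
    apply S.unc
    have : Iio S.o = ∅ := by
      ext y
      simp only [mem_Iio, mem_empty_iff_false, iff_false, not_lt]
      exact h y
    rw [this]
    exact Set.countable_empty
  let G : Finset α → Set α := fun u =>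
    {ξ₀} ∪ (Iio S.o ∩ ⋃ t ∈ {t : List α | ∀ y ∈ t, y ∈ u}, m t)
  obtain ⟨a, haX, -, hac, haG⟩ := hst G (fun u =>
    (Set.countable_singleton _).union
      ((Countable.biUnion (countable_lists u) (fun t _ => hm' t)).mono Set.inter_subset_right))
    (fun u => Set.union_subset (by
      intro y hy
      rw [mem_singleton_iff] at hy
      rw [hy]
      exact hξ₀) Set.inter_subset_left)
  have ha' : a ∈ X' := ⟨haX, hac, ⟨ξ₀, haG ∅ (by simp) (Or.inl rfl)⟩⟩
  obtain ⟨k, hk⟩ := hmP _ ⟨⟨a, ha'⟩, rfl⟩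
  have hlt : δ ⟨a, ha'⟩ < S.o := by
    obtain ⟨y, h1, h2⟩ := hne ⟨a, ha'⟩
    exact (hδ2 _ y h2).trans_lt h1
  apply hδ1 ⟨a, ha'⟩
  refine haG ((List.range k).map (p ⟨a, ha'⟩)).toFinset ?_ (Or.inr ⟨hlt, ?_⟩)
  · intro y hy
    rw [Finset.mem_coe, List.mem_toFinset, List.mem_map] at hy
    obtain ⟨n, -, rfl⟩ := hy
    have h1 : a = Set.range (p ⟨a, ha'⟩) := hp ⟨a, ha'⟩
    have h2 : p ⟨a, ha'⟩ n ∈ Set.range (p ⟨a, ha'⟩) := ⟨n, rfl⟩
    rw [← h1] at h2
    exact h2
  · simp only [mem_iUnion]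
    exact ⟨(List.range k).map (p ⟨a, ha'⟩), fun y hy => List.mem_toFinset.2 hy, hk⟩

end Pool.Agent.Lib.IncompactC
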